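import Pool.Agent.W788.NV.Stm

/-!
# Project NV, parts GEN and TOT
-/

namespace Pool.Agent.W419.NV

open Finset
open Pool.Agent.W788.NV

theorem cardSum {V : Type} [Fintype V] (G : SimpleGraph V) (q : ℕ) (θ : ℝ)
    (x : V → Fin q) (v : V) (g : Fin q → ℝ) :
    ∑ a, rate G q θ x v a * g a
      = ∑ a, θ / q * g a + ∑ w, mrate G q θ (Sum.inr (v, w)) * g (x w) := by
  classical
  have h1 : ∀ a : Fin q, rate G q θ x v a * g a = θ / q * g a
      + ∑ w, (if G.Adj v w ∧ x w = a then (1 - θ) / (dg G v : ℝ) * g a else 0) := by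
    intro a
    unfold rate
    rw [Finset.card_filter]
    push_cast
    rw [← Finset.sum_filter, ← Finset.sum_filter]
    simp only [Finset.sum_const, nsmul_eq_mul, mul_one]
    ring
  rw [Finset.sum_congr rfl (fun a _ => h1 a), Finset.sum_add_distrib]
  congr 1
  rw [Finset.sum_comm]
  refine Finset.sum_congr rfl (fun w _ => ?_)
  by_cases hw : G.Adj v w
  · simp [mrate, hw]
  · simp [mrate, hw]

/-- GEN -/
theorem gen_ : S_GEN := by
  intro V _ _ G q θ
  classical
  funext x y
  unfold gen mgen
  rw [Fintype.sum_sum_type, Fintype.sum_prod_type, Fintype.sum_prod_type,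
    ← Finset.sum_add_distrib]
  refine Finset.sum_congr rfl (fun v _ => ?_)
  have h := cardSum G q θ x v (fun a => (if y = Function.update x v a then (1 : ℝ) else 0)
    - (if y = x then 1 else 0))
  exact h

/-- TOT -/
theorem tot_ : S_TOT := by
  intro V _ _ G q θ hq h0 h1 hd
  classical
  have hq' : (0 : ℝ) < q := by exact_mod_cast hq
  refine ⟨?_, ?_⟩
  · rintro (p | p)
    · exact div_nonneg h0 hq'.le
    · unfold mrate
      simp only
      split_ifs
      · exact div_nonneg (by linarith) (Nat.cast_nonneg _)
      · exact le_rfl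
  · intro c
    rw [Fintype.sum_sum_type, Fintype.sum_prod_type, Fintype.sum_prod_type,
      ← Finset.sum_add_distrib]
    refine Finset.sum_congr rfl (fun v _ => ?_)
    have hdv : (0 : ℝ) < (dg G v : ℝ) := by exact_mod_cast hd v
    have e1 : ∑ a : Fin q, mrate G q θ (Sum.inl (v, a)) * c (site (V := V) (q := q) (Sum.inl (v, a)))
        = θ * c v := by
      simp only [mrate, site, Finset.sum_const, Finset.card_univ, Fintype.card_fin, nsmul_eq_mul]
      field_simp
    have e2 : ∑ w : V, mrate G q θ (Sum.inr (v, w)) * c (site (V := V) (q := q) (Sum.inr (v, w)))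
        = (1 - θ) * c v := by
      simp only [mrate, site, ite_mul, zero_mul]
      rw [← Finset.sum_filter]
      simp only [Finset.sum_const, nsmul_eq_mul]
      have : ((univ.filter (fun w => G.Adj v w)).card : ℝ) = (dg G v : ℝ) := by
        unfold dg
        rfl
      rw [this]
      field_simp
    rw [e1, e2]
    ring

end Pool.Agent.W419.NV
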